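import Mathlib
import Pool.Agent.H.MP_b7167f_an.Def
import Pool.Agent.H.MP_b7167f_an.Avg6

open MeasureTheory
open scoped ENNReal NNReal

open Pool.Agent.H.MP_b7167f_an

/-- The restriction conjecture in mean over coordinatewise dilations, for every bounded `f`.
Let `d = k + 2`, `λ ∈ [1,2]^k = [1,2]^(d-2)` and `f_λ(ξ) = f(ξ₀, λ₁ ξ₁, …, λₖ ξₖ)`.  If `ν` is a
measure on `ℝᵏ` giving mass at most `K ρ^s` to every cube of side `ρ ≤ 1`, then for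
`q > 2 + 2 / (1 + s)` and `0 < r < (1 + s) q` the `r`-th moment of `‖E f_λ‖_{L^q(ℝ^d)}` with respect
to `ν` on `[1,2]^k` is bounded, uniformly over all measurable `f` with `|f| ≤ 1` that vanish off
`[-1,1]^(d-1)`.  For Lebesgue measure (`s = k = d - 2`, `K = 1`) the range of `q` is the full
conjectured range `q > 2 d / (d - 1)`. -/
theorem Pool.Agent.Results.MP_b7167f_an.DilateAverage.result
    (k : ℕ) (s K q r : ℝ) (hs : 0 < s) (hq : 2 + 2 / (1 + s) < q) (hr : 0 < r)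
    (hrq : r < (1 + s) * q) :
    ∃ C : ℝ≥0, ∀ ν : Measure (Fin k → ℝ),
      (∀ (x : Fin k → ℝ) (ρ : ℝ), 0 < ρ → ρ ≤ 1 →
        ν (Set.Icc x (fun j => x j + ρ)) ≤ ENNReal.ofReal (K * ρ ^ s)) →
      ∀ f : (Fin (k + 1) → ℝ) → ℂ, Measurable f → (∀ ξ, ‖f ξ‖ ≤ 1) →
      (∀ ξ, ξ ∉ Set.Icc (fun _ => (-1 : ℝ)) (fun _ => (1 : ℝ)) → f ξ = 0) →
      ∫⁻ l in Set.Icc (fun _ : Fin k => (1 : ℝ)) (fun _ => (2 : ℝ)),
        (eLpNorm (extOp (k + 1) (fun ξ => f (fun j => (Fin.cons 1 l : Fin (k + 1) → ℝ) j * ξ j)))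
          (ENNReal.ofReal q) volume) ^ r ∂ν ≤ C :=
  avg_main k hs hq hr hrq
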