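import Mathlib
import Pool.Agent.H.MP_b7167f_an.Defs
import Pool.Agent.H.MP_b7167f_an.IR.Fin

/-!
Extension estimate for the truncated paraboloid in `ℝ^(m+k+1)` for functions with some
`ℓ²`-weighted regularity in `m` of the frequency variables and none in the other `k` variables,
the regularity being only `L^p` integrable in the latter, `p > 2(m+2)/(m+1)`.  For `k = 1` the
range of `q` is the full conjectured range `q > 2d/(d-1)`, `d = m + 2`.
-/

namespace Pool.Agent.Results.MP_b7167f_an.IntegrableRegularity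

open MeasureTheory Set Pool.Agent.H.MP_b7167f_an

theorem result (m k : ℕ) (hm : 1 ≤ m) (hk : 1 ≤ k) (W : (Fin m → ℤ) → ℝ)
    (hW : ∀ j, 1 ≤ W j) (ρ : ℝ) (hρ : 0 < ρ) (hρm : ρ < m + 2)
    (hS : Summable fun j => W j ^ (-ρ)) (p q : ℝ) (hp : 2 * (m + 2) / (m + 1) < p)
    (hq : 2 * (m + 2) / (m + 1) < q) :
    ∃ C : ℝ, 0 ≤ C ∧ ∀ f : (Fin m → ℝ) × (Fin k → ℝ) → ℂ, Measurable f →
      (∃ M : ℝ, ∀ ξ, ‖f ξ‖ ≤ M) → ∀ A : ℝ, 0 ≤ A →
      (∀ J : Finset (Fin m → ℤ), ∫⁻ η in Icc (-1 : Fin k → ℝ) 1,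
        ENNReal.ofReal (∑ j ∈ J, W j * ‖coef f j η‖ ^ 2) ^ (p / 2) ≤ ENNReal.ofReal A ^ p) →
      eLpNorm (extension m k f) (ENNReal.ofReal q) volume ≤ ENNReal.ofReal (C * A) :=
  IR.main_Lp m k hm hk W hW ρ hρ hρm hS p q hp hq

end Pool.Agent.Results.MP_b7167f_an.IntegrableRegularity
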