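import Mathlib
import Pool.Agent.H.MP_b7167f_an.Def
import Pool.Agent.H.MP_b7167f_an.SV.Tensor

open MeasureTheory
open scoped ENNReal NNReal

open Pool.Agent.H.MP_b7167f_an

/-- The restriction conjecture in every dimension `d = n + 1 ≥ 3`, `n = m + 2k`, `k ≥ 1`, (extension
form, full range `q > 2(n+1)/n`) for the functions
`f(ξ) = T(u₁(ξ_{j₁}), …, u_m(ξ_{j_m})) · ∏_{i ≤ k} aᵢ(ξ_{bᵢ}, ξ_{cᵢ})`,
where the coordinates of `ξ` are arranged by the bijection `e`.  Here `T` is a bounded `m`-linear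
form on Hilbert spaces and `uⱼ` are arbitrary measurable maps into their unit balls, and each `aᵢ`
is a measurable function on the plane which, on the part in the square `[-1,1]²` of the ray from
`pᵢ` of direction `θ`, has absolute value and total variation at most `Vᵢ(θ)`, with no relation
between different rays and `Vᵢ` only in `L^{sᵢ}`.  The constant does not depend on `f`, nor on
`pᵢ` in a bounded set. -/
theorem Pool.Agent.Results.MP_b7167f_an.RayProducts.result (n m k : ℕ) (hn : n = m + 2 * k)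
    (hk : 1 ≤ k) (q R : ℝ) (s : Fin k → ℝ) (hs : ∀ i, 0 < s i) (h1 : ∀ i, 1 / s i + 1 / q < 1)
    (h2 : ∑ i, max 0 (q / s i - 1) < n * (q - 2) - 2) :
    ∃ C : ℝ≥0, ∀ (e : Fin m ⊕ Fin k × Fin 2 ≃ Fin n)
      {H : Fin m → Type*} [∀ j, NormedAddCommGroup (H j)] [∀ j, InnerProductSpace ℂ (H j)]
      [∀ j, CompleteSpace (H j)] (T : ContinuousMultilinearMap ℂ H ℂ) (u : ∀ j, ℝ → H j),
      (∀ j, StronglyMeasurable (u j)) → (∀ j, ∀ x ∈ Set.Icc (-1 : ℝ) 1, ‖u j x‖ ≤ 1) →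
      ∀ (p : Fin k → Fin 2 → ℝ) (V : Fin k → ℝ → ℝ≥0∞) (a : Fin k → (Fin 2 → ℝ) → ℂ),
      (∀ i, ‖p i‖ ≤ R) → (∀ i, Measurable (V i)) → (∀ i, Measurable (a i)) →
      (∀ i, ∀ θ ∈ Set.Ioc (-Real.pi) Real.pi, ∀ r : ℝ, 0 < r →
        p i + r • ![Real.cos θ, Real.sin θ] ∈ Set.Icc (fun _ => (-1 : ℝ)) (fun _ => (1 : ℝ)) →
        ‖a i (p i + r • ![Real.cos θ, Real.sin θ])‖ₑ ≤ V i θ) →
      (∀ i, ∀ θ ∈ Set.Ioc (-Real.pi) Real.pi,
        eVariationOn (fun r : ℝ => a i (p i + r • ![Real.cos θ, Real.sin θ]))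
          {r : ℝ | 0 < r ∧ p i + r • ![Real.cos θ, Real.sin θ] ∈
            Set.Icc (fun _ => (-1 : ℝ)) (fun _ => (1 : ℝ))} ≤ V i θ) →
      eLpNorm (extOp n fun ξ => T (fun j => u j (ξ (e (Sum.inl j)))) *
          ∏ i, a i ![ξ (e (Sum.inr (i, 0))), ξ (e (Sum.inr (i, 1)))])
        (ENNReal.ofReal q) volume ≤
        C * ENNReal.ofReal ‖T‖ *
          ∏ i, (∫⁻ θ in Set.Ioc (-Real.pi) Real.pi, V i θ ^ s i) ^ (1 / s i) := by
  subst hn
  obtain ⟨C, hC⟩ := SV.tens_bound m k hk q R s hs h1 h2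
  refine ⟨C, fun e {H} _ _ _ T u hu hub p V a hp hV ha hb hv => ?_⟩
  exact hC e T u hu hub p hp V a fun i => ⟨ha i, hV i, hb i, hv i⟩
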