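import Mathlib
import Pool.Agent.H.MP_b7167f_an.Def
import Pool.Agent.H.MP_b7167f_an.EntDef
import Pool.Agent.H.MP_b7167f_an.MasterMain

open MeasureTheory
open scoped ENNReal NNReal

open Pool.Agent.H.MP_b7167f_an

/-- The restriction conjecture (in extension form), in its full conjectured range
`q > 2(n+1)/n = 2d/(d-1)` with `d = n + 1`, for the products
`f(ξ) = T (u₁(ξ₁), …, uₙ(ξₙ)) * g₁(ξ) * … * g_N(ξ)`, where
* `T` is a bounded `n`-linear form on complex Hilbert spaces `H₁, …, Hₙ` and `uⱼ : ℝ → Hⱼ` is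
  strongly measurable with norm at most `1` on `[-1,1]` (for instance `T = 1`);
* the `gₑ` are measurable functions bounded by `1`.  Each `gₑ` may depend on one variable, the
  `i(e)`-th, in an arbitrary way; in each variable `j ≠ i(e)` its sections have packing numbers at
  most `K ε^(-p(e,j))` in `L²(μ)`, uniformly over the finitely supported probability measures `μ`
  on the cube; and, with `S(e) = ∑_{j ≠ i(e)} p(e,j)`, the exponents satisfy
  `∑ₑ max (0, S(e) - 2) < 2 n = 2 (d-1)`.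
For one factor `N = 1` the condition is `S < 2 d`.
The constant depends on `n`, `N`, `i`, `p`, `K`, `q` only. -/
theorem Pool.Agent.Results.MP_b7167f_an.SectionEntropy.result
    (n N : ℕ) (hn : 1 ≤ n) (i : Fin N → Fin n) (p : Fin N → Fin n → ℝ) (hp : ∀ e j, 0 ≤ p e j)
    (hsum : ∑ e, max 0 (∑ j ∈ Finset.univ.erase (i e), p e j - 2) < 2 * (n : ℝ)) (K q : ℝ)
    (hq : 2 * ((n : ℝ) + 1) / n < q) :
    ∃ C : ℝ≥0, ∀ (H : Fin n → Type*) [∀ j, NormedAddCommGroup (H j)]
      [∀ j, InnerProductSpace ℂ (H j)] [∀ j, CompleteSpace (H j)]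
      (T : ContinuousMultilinearMap ℂ H ℂ) (u : ∀ j, ℝ → H j),
      (∀ j, StronglyMeasurable (u j)) →
      (∀ j, ∀ s ∈ Set.Icc (-1 : ℝ) 1, ‖u j s‖ ≤ 1) →
      ∀ g : Fin N → (Fin n → ℝ) → ℂ, (∀ e, Measurable (g e)) →
      (∀ e, ∀ ξ ∈ Set.Icc (fun _ : Fin n => (-1 : ℝ)) (fun _ : Fin n => (1 : ℝ)),
        ‖g e ξ‖ ≤ 1) →
      (∀ e j, j ≠ i e → SectionPacking n (g e) j (p e j) K) →
      eLpNorm (extOp n (fun ξ => T (fun l => u l (ξ l)) * ∏ e, g e ξ))
        (ENNReal.ofReal q) volume ≤ C * ‖T‖ₑ := by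
  obtain ⟨m, rfl⟩ : ∃ m, n = m + 1 := ⟨n - 1, by omega⟩
  have hS : ∀ e, ∑ j ∈ Finset.univ.erase (i e), p e j
      = ∑ j : Fin m, p e ((i e).succAbove j) := by
    intro e
    have h1 := Fin.sum_univ_succAbove (p e) (i e)
    have h2 := Finset.add_sum_erase Finset.univ (p e) (Finset.mem_univ (i e))
    linarith
  simp_rw [hS] at hsum
  obtain ⟨C, hC⟩ := master_main m N i hp (by push_cast at hsum; exact hsum) K (q := q)
    (by push_cast at hq; refine lt_of_eq_of_lt ?_ hq; congr 1; ring)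
  refine ⟨C, ?_⟩
  intro H _ _ _ T u hu hbu g hg hg1 hgp
  exact hC g hg hg1 hgp ⟨H, T, u, hu, hbu⟩
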